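import Pool.Agent.Run7.h295.EC.Iface

set_option autoImplicit false
set_option linter.unusedSimpArgs false
set_option linter.unusedSectionVars false

/-! Piece FIVE of the project EC of helper295: the graphs with five vertices and six edges. -/

namespace Run7.h547.EC

open Finset Run7.h295.EC

variable {V : Type} [Fintype V] [DecidableEq V]

theorem count_le (G : SimpleGraph V) (e : Fin 6 → Sym2 V) (hE : ∀ x ∈ EE G, ∃ i, e i = x)
    (P : (Fin 6 → Bool) → Bool)
    (hP : ∀ S ∈ covers G, P (fun i => decide (e i ∈ S)) = true)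
    (hcard : ((univ : Finset (Fin 6 → Bool)).filter (fun f => P f = true)).card ≤ 26) :
    (covers G).card ≤ 26 := by
  refine le_trans ?_ hcard
  refine Finset.card_le_card_of_injOn (fun S => fun i => decide (e i ∈ S)) (fun S hS => ?_) ?_
  · simp only [coe_filter, mem_univ, true_and, Set.mem_ofPred_eq]
    exact hP S hS
  · intro S hS T hT h
    have hS2 : S ⊆ EE G := by
      have h1 : S ∈ covers G := hS
      simp only [covers, mem_filter, mem_powerset] at h1
      exact h1.1
    have hT2 : T ⊆ EE G := by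
      have h1 : T ∈ covers G := hT
      simp only [covers, mem_filter, mem_powerset] at h1
      exact h1.1
    have h2 : ∀ i, (e i ∈ S ↔ e i ∈ T) := fun i => by
      have := congrFun h i
      simpa using this
    ext x
    constructor
    · intro hx
      obtain ⟨i, rfl⟩ := hE x (hS2 hx)
      exact (h2 i).1 hx
    · intro hx
      obtain ⟨i, rfl⟩ := hE x (hT2 hx)
      exact (h2 i).2 hx

theorem mem_EE (G : SimpleGraph V) {x y : V} (h : G.Adj x y) : s(x, y) ∈ EE G := by
  simp only [EE, mem_filter, mem_univ, true_and, SimpleGraph.mem_edgeSet]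
  exact h

theorem all_six (G : SimpleGraph V) (e : Fin 6 → Sym2 V) (he : Function.Injective e)
    (hE : ∀ i, e i ∈ EE G) (h6 : (EE G).card = 6) : ∀ x ∈ EE G, ∃ i, e i = x := by
  have h1 : univ.image e ⊆ EE G := by
    intro x hx
    rw [mem_image] at hx
    obtain ⟨i, -, rfl⟩ := hx
    exact hE i
  have h2 : univ.image e = EE G := by
    refine Finset.eq_of_subset_of_card_le h1 ?_
    rw [Finset.card_image_of_injective _ he, h6]
    simp
  intro x hx
  rw [← h2, mem_image] at hx
  obtain ⟨i, -, hi⟩ := hx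
  exact ⟨i, hi⟩

/-- a cover contains one of the listed edges at a vertex -/
theorem star (G : SimpleGraph V) (e : Fin 6 → Sym2 V) (hE : ∀ x ∈ EE G, ∃ i, e i = x)
    (S : Finset (Sym2 V)) (hS : S ∈ covers G) (x : V) : ∃ i, x ∈ e i ∧ e i ∈ S := by
  simp only [covers, mem_filter, mem_powerset] at hS
  obtain ⟨y, hy, hxy⟩ := hS.2 x
  obtain ⟨i, rfl⟩ := hE y (hS.1 hy)
  exact ⟨i, hxy, hy⟩

theorem k23 (G : SimpleGraph V) (u v a b c : V) (huv : u ≠ v) (hua : u ≠ a) (hub : u ≠ b)
    (huc : u ≠ c) (hva : v ≠ a) (hvb : v ≠ b) (hvc : v ≠ c) (hab : a ≠ b) (hac : a ≠ c) (hbc : b ≠ c)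
    (h6 : (EE G).card = 6) (e0 : G.Adj u a) (e1 : G.Adj u b) (e2 : G.Adj u c) (e3 : G.Adj v a)
    (e4 : G.Adj v b) (e5 : G.Adj v c) : (covers G).card ≤ 26 ∧ ¬ G.Adj u v := by
  have hall := all_six G ![s(u, a), s(u, b), s(u, c), s(v, a), s(v, b), s(v, c)] (by
    intro i j
    fin_cases i <;> fin_cases j <;> simp [Sym2.eq_iff, huv, hua, hub, huc, hva, hvb, hvc, hab, hac, hbc,
      huv.symm, hua.symm, hub.symm, huc.symm, hva.symm, hvb.symm, hvc.symm, hab.symm, hac.symm, hbc.symm]) (by
    intro i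
    fin_cases i
    · exact mem_EE G e0
    · exact mem_EE G e1
    · exact mem_EE G e2
    · exact mem_EE G e3
    · exact mem_EE G e4
    · exact mem_EE G e5) h6
  refine ⟨?_, ?_⟩
  · refine count_le G _ hall (fun f => (f 0 || f 3) && (f 1 || f 4) && (f 2 || f 5) &&
      (f 0 || f 1 || f 2) && (f 3 || f 4 || f 5)) (fun S hS => ?_) (by decide)
    have ha := star G _ hall S hS a
    have hb := star G _ hall S hS b
    have hc := star G _ hall S hS c
    have hu := star G _ hall S hS u
    have hv := star G _ hall S hS v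
    simp [Fin.exists_fin_succ, huv, hua, hub, huc, hva, hvb, hvc, hab, hac, hbc, huv.symm, hua.symm,
      hub.symm, huc.symm, hva.symm, hvb.symm, hvc.symm, hab.symm, hac.symm, hbc.symm] at ha hb hc hu hv
    simp
    tauto
  · intro h
    obtain ⟨i, hi⟩ := hall _ (mem_EE G h)
    revert hi
    fin_cases i <;> simp [Sym2.eq_iff, huv, hua, hub, huc, hva, hvb, hvc, hab, hac, hbc,
      huv.symm, hua.symm, hub.symm, huc.symm, hva.symm, hvb.symm, hvc.symm, hab.symm, hac.symm, hbc.symm]

theorem house (G : SimpleGraph V) (u v a b c : V) (huv : u ≠ v) (hua : u ≠ a) (hub : u ≠ b)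
    (huc : u ≠ c) (hva : v ≠ a) (hvb : v ≠ b) (hvc : v ≠ c) (hab : a ≠ b) (hac : a ≠ c) (hbc : b ≠ c)
    (h6 : (EE G).card = 6) (e0 : G.Adj u v) (e1 : G.Adj u a) (e2 : G.Adj v a) (e3 : G.Adj u b)
    (e4 : G.Adj b c) (e5 : G.Adj v c) : (covers G).card ≤ 26 := by
  have hall := all_six G ![s(u, v), s(u, a), s(v, a), s(u, b), s(b, c), s(v, c)] (by
    intro i j
    fin_cases i <;> fin_cases j <;> simp [Sym2.eq_iff, huv, hua, hub, huc, hva, hvb, hvc, hab, hac, hbc,
      huv.symm, hua.symm, hub.symm, huc.symm, hva.symm, hvb.symm, hvc.symm, hab.symm, hac.symm, hbc.symm]) (by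
    intro i
    fin_cases i
    · exact mem_EE G e0
    · exact mem_EE G e1
    · exact mem_EE G e2
    · exact mem_EE G e3
    · exact mem_EE G e4
    · exact mem_EE G e5) h6
  refine count_le G _ hall (fun f => (f 1 || f 2) && (f 3 || f 4) && (f 4 || f 5) &&
      (f 0 || f 1 || f 3) && (f 0 || f 2 || f 5)) (fun S hS => ?_) (by decide)
  have ha := star G _ hall S hS a
  have hb := star G _ hall S hS b
  have hc := star G _ hall S hS c
  have hu := star G _ hall S hS u
  have hv := star G _ hall S hS v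
  simp [Fin.exists_fin_succ, huv, hua, hub, huc, hva, hvb, hvc, hab, hac, hbc, huv.symm, hua.symm,
    hub.symm, huc.symm, hva.symm, hvb.symm, hvc.symm, hab.symm, hac.symm, hbc.symm] at ha hb hc hu hv
  simp
  tauto

/-- the adjacency indicator -/
noncomputable def ad (G : SimpleGraph V) (x y : V) : ℕ := by classical exact if G.Adj x y then 1 else 0

theorem ad_comm (G : SimpleGraph V) (x y : V) : ad G x y = ad G y x := by
  unfold ad
  by_cases h : G.Adj x y
  · rw [if_pos h, if_pos h.symm]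
  · rw [if_neg h, if_neg (fun h' => h h'.symm)]

theorem ad_self (G : SimpleGraph V) (x : V) : ad G x x = 0 := by
  unfold ad; simp

theorem ad_le (G : SimpleGraph V) (x y : V) : ad G x y ≤ 1 := by
  unfold ad; split_ifs <;> omega

theorem ad_one (G : SimpleGraph V) {x y : V} (h : ad G x y = 1) : G.Adj x y := by
  unfold ad at h
  by_contra hn
  rw [if_neg hn] at h
  omega

theorem dg_eq (G : SimpleGraph V) (x : V) : dg G x = ∑ y, ad G x y := by
  classical
  unfold dg
  have h1 : inc G x = (univ.filter (fun y => G.Adj x y)).image (fun y => s(x, y)) := by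
    ext z
    simp only [inc, EE, mem_filter, mem_univ, true_and, mem_image]
    constructor
    · rintro ⟨h1, h2⟩
      obtain ⟨y, rfl⟩ := Sym2.mem_iff_exists.1 h2
      exact ⟨y, G.mem_edgeSet.1 h1, rfl⟩
    · rintro ⟨y, hy, rfl⟩
      exact ⟨G.mem_edgeSet.2 hy, Sym2.mem_mk_left _ _⟩
  rw [h1, Finset.card_image_of_injective, Finset.card_filter]
  · refine Finset.sum_congr rfl fun y _ => ?_
    unfold ad
    split_ifs <;> rfl
  · intro y z h
    exact Sym2.congr_right.1 h

theorem arith (uv ua ub uc va vb vc ab ac bc : ℕ) (b1 : uv ≤ 1) (b2 : ua ≤ 1) (b3 : ub ≤ 1) (b4 : uc ≤ 1)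
    (b5 : va ≤ 1) (b6 : vb ≤ 1) (b7 : vc ≤ 1) (b8 : ab ≤ 1) (b9 : ac ≤ 1) (b10 : bc ≤ 1)
    (du : 3 ≤ uv + (ua + (ub + uc))) (dv : 3 ≤ uv + (va + (vb + vc)))
    (ha : ua + (va + (ab + ac)) = 2) (hb : ub + (vb + (ab + bc)) = 2) (hc : uc + (vc + (ac + bc)) = 2) :
    (ua = 1 ∧ ub = 1 ∧ uc = 1 ∧ va = 1 ∧ vb = 1 ∧ vc = 1) ∨
      (uv = 1 ∧ ((bc = 1 ∧ ua = 1 ∧ va = 1 ∧ ((ub = 1 ∧ vc = 1) ∨ (uc = 1 ∧ vb = 1))) ∨
       (ac = 1 ∧ ub = 1 ∧ vb = 1 ∧ ((ua = 1 ∧ vc = 1) ∨ (uc = 1 ∧ va = 1))) ∨
       (ab = 1 ∧ uc = 1 ∧ vc = 1 ∧ ((ua = 1 ∧ vb = 1) ∨ (ub = 1 ∧ va = 1))))) := by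
  have hI : ab + ac + bc ≤ uv := by omega
  rcases Nat.eq_zero_or_pos (ab + ac + bc) with h0 | h0
  · left
    refine ⟨?_, ?_, ?_, ?_, ?_, ?_⟩ <;> omega
  · right
    have h1 : uv = 1 := by omega
    refine ⟨h1, ?_⟩
    subst h1
    have h2 : ab + ac + bc = 1 := by omega
    have h3 : bc = 1 ∨ ac = 1 ∨ ab = 1 := by omega
    rcases h3 with h3 | h3 | h3
    · left
      have e1 : ab = 0 := by omega
      have e2 : ac = 0 := by omega
      subst h3 e1 e2
      have e3 : ua = 1 := by omega
      have e4 : va = 1 := by omega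
      subst e3 e4
      refine ⟨rfl, rfl, rfl, ?_⟩
      rcases Nat.eq_zero_or_pos ub with h | h
      · right; constructor <;> omega
      · left; constructor <;> omega
    · right; left
      have e1 : ab = 0 := by omega
      have e2 : bc = 0 := by omega
      subst h3 e1 e2
      have e3 : ub = 1 := by omega
      have e4 : vb = 1 := by omega
      subst e3 e4
      refine ⟨rfl, rfl, rfl, ?_⟩
      rcases Nat.eq_zero_or_pos ua with h | h
      · right; constructor <;> omega
      · left; constructor <;> omega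
    · right; right
      have e1 : ac = 0 := by omega
      have e2 : bc = 0 := by omega
      subst h3 e1 e2
      have e3 : uc = 1 := by omega
      have e4 : vc = 1 := by omega
      subst e3 e4
      refine ⟨rfl, rfl, rfl, ?_⟩
      rcases Nat.eq_zero_or_pos ua with h | h
      · right; constructor <;> omega
      · left; constructor <;> omega

theorem t_FIVE : S_FIVE := by
  intro V _ _ G h5 h6 hd h3
  have hcompl : (deg2 G)ᶜ.card = 2 := by rw [Finset.card_compl, h5, h3]
  obtain ⟨u, v, huv, hset⟩ := Finset.card_eq_two.1 hcompl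
  obtain ⟨a, b, c, hab, hac, hbc, hset3⟩ := Finset.card_eq_three.1 h3
  have hu : u ∉ deg2 G := by rw [← mem_compl, hset]; simp
  have hv : v ∉ deg2 G := by rw [← mem_compl, hset]; simp
  have ha : a ∈ deg2 G := by rw [hset3]; simp
  have hb : b ∈ deg2 G := by rw [hset3]; simp
  have hc : c ∈ deg2 G := by rw [hset3]; simp
  have hua : u ≠ a := fun h => hu (h ▸ ha)
  have hub : u ≠ b := fun h => hu (h ▸ hb)
  have huc : u ≠ c := fun h => hu (h ▸ hc)
  have hva : v ≠ a := fun h => hv (h ▸ ha)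
  have hvb : v ≠ b := fun h => hv (h ▸ hb)
  have hvc : v ≠ c := fun h => hv (h ▸ hc)
  have huniv : (univ : Finset V) = {u, v, a, b, c} := by
    rw [← Finset.union_compl (deg2 G), hset, hset3]
    ext x
    simp only [mem_union, mem_insert, mem_singleton]
    tauto
  have hsum : ∀ x, dg G x = ad G x u + (ad G x v + (ad G x a + (ad G x b + ad G x c))) := by
    intro x
    rw [dg_eq, huniv, sum_insert, sum_insert, sum_insert, sum_insert, sum_singleton]
    · simp [hbc]
    · simp [hab, hac]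
    · simp [hva, hvb, hvc]
    · simp [huv, hua, hub, huc]
  simp only [deg2, mem_filter, mem_univ, true_and] at hu hv ha hb hc
  have du := hd u
  have dv := hd v
  rw [hsum] at hu hv ha hb hc du dv
  rw [ad_self] at hu hv ha hb hc du dv
  rw [ad_comm G v u] at hv dv
  rw [ad_comm G a u, ad_comm G a v] at ha
  rw [ad_comm G b u, ad_comm G b v, ad_comm G b a] at hb
  rw [ad_comm G c u, ad_comm G c v, ad_comm G c a, ad_comm G c b] at hc
  have b1 := ad_le G u v
  have b2 := ad_le G u a
  have b3 := ad_le G u b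
  have b4 := ad_le G u c
  have b5 := ad_le G v a
  have b6 := ad_le G v b
  have b7 := ad_le G v c
  have b8 := ad_le G a b
  have b9 := ad_le G a c
  have b10 := ad_le G b c
  have key := arith (ad G u v) (ad G u a) (ad G u b) (ad G u c) (ad G v a) (ad G v b) (ad G v c)
    (ad G a b) (ad G a c) (ad G b c) b1 b2 b3 b4 b5 b6 b7 b8 b9 b10 (by omega) (by omega) (by omega)
    (by omega) (by omega)
  rcases key with ⟨k1, k2, k3, k4, k5, k6⟩ | ⟨k0, ⟨k1, k2, k3, ⟨k4, k5⟩ | ⟨k4, k5⟩⟩ |
    ⟨k1, k2, k3, ⟨k4, k5⟩ | ⟨k4, k5⟩⟩ | ⟨k1, k2, k3, ⟨k4, k5⟩ | ⟨k4, k5⟩⟩⟩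
  · exact (k23 G u v a b c huv hua hub huc hva hvb hvc hab hac hbc h6 (ad_one G k1) (ad_one G k2)
      (ad_one G k3) (ad_one G k4) (ad_one G k5) (ad_one G k6)).1
  · exact house G u v a b c huv hua hub huc hva hvb hvc hab hac hbc h6 (ad_one G k0) (ad_one G k2)
      (ad_one G k3) (ad_one G k4) (ad_one G k1) (ad_one G k5)
  · exact house G u v a c b huv hua huc hub hva hvc hvb hac hab hbc.symm h6 (ad_one G k0) (ad_one G k2)
      (ad_one G k3) (ad_one G k4) (ad_one G k1).symm (ad_one G k5)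
  · exact house G u v b a c huv hub hua huc hvb hva hvc hab.symm hbc hac h6 (ad_one G k0) (ad_one G k2)
      (ad_one G k3) (ad_one G k4) (ad_one G k1) (ad_one G k5)
  · exact house G u v b c a huv hub huc hua hvb hvc hva hbc hab.symm hac.symm h6 (ad_one G k0)
      (ad_one G k2) (ad_one G k3) (ad_one G k4) (ad_one G k1).symm (ad_one G k5)
  · exact house G u v c a b huv huc hua hub hvc hva hvb hac.symm hbc.symm hab h6 (ad_one G k0)
      (ad_one G k2) (ad_one G k3) (ad_one G k4) (ad_one G k1) (ad_one G k5)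
  · exact house G u v c b a huv huc hub hua hvc hvb hva hbc.symm hac.symm hab.symm h6 (ad_one G k0)
      (ad_one G k2) (ad_one G k3) (ad_one G k4) (ad_one G k1).symm (ad_one G k5)

end Run7.h547.EC
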