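import Pool.Agent.Run7.h295.EC.Iface

set_option autoImplicit false

/-! Piece SIZ of the project EC of helper295: the sizes of the members of a tight barrier. -/

namespace Run7.h547.EC

open Finset Run7.h295.EC

theorem btw_compl {V : Type} [Fintype V] [DecidableEq V] (G : SimpleGraph V) (W : Finset V)
    (F : Finset (Finset V)) (hB : Barrier G W F) (O : Finset V) (hO : O ∈ F) :
    btw G O Oᶜ = btw G O W := by
  classical
  obtain ⟨-, -, h3, h4⟩ := hB
  ext e
  simp only [Run7.h295.EC.btw, mem_filter]
  refine and_congr_right fun he => ⟨?_, ?_⟩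
  · rintro ⟨x, hx, y, hy, rfl⟩
    simp only [EE, mem_filter, mem_univ, true_and, SimpleGraph.mem_edgeSet] at he
    rcases h4 O hO x hx y he with h | h
    · exact absurd h (mem_compl.1 hy)
    · exact ⟨x, hx, y, h, rfl⟩
  · rintro ⟨x, hx, y, hy, rfl⟩
    exact ⟨x, hx, y, mem_compl.2 fun h => Finset.disjoint_left.1 (h3 O hO) h hy, rfl⟩

theorem ins_single {V : Type} [Fintype V] (G : SimpleGraph V) (v : V) :
    ins G {v} = ∅ := by
  classical
  rw [Finset.eq_empty_iff_forall_notMem]
  intro e he
  simp only [ins, EE, mem_filter, mem_univ, true_and, mem_singleton] at he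
  obtain ⟨h1, h2⟩ := he
  induction e using Sym2.ind with
  | _ a b =>
    have ha := h2 a (Sym2.mem_mk_left a b)
    have hb := h2 b (Sym2.mem_mk_right a b)
    subst ha
    subst hb
    exact G.loopless.irrefl _ (G.mem_edgeSet.1 h1)

theorem t_SIZ : S_HAND → S_LOC → S_SIZ := by
  classical
  intro hHAND hLOC V _ _ G W F hconn hd hB hW hle h2a
  obtain ⟨hins, hO, hcov, heq⟩ := hLOC V G W F hconn hd hB hW hle
  obtain ⟨hodd, hdis, hdW, hcl⟩ := id hB
  set a := (deg2 G).card with ha
  set m := (EE G).card with hm
  -- the number of the vertices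
  have hn : Fintype.card V = W.card + ∑ O ∈ F, O.card := by
    have h1 : (F.biUnion id).card = ∑ O ∈ F, O.card := by
      rw [Finset.card_biUnion]
      · rfl
      · intro O hO O' hO' hne
        exact hdis O hO O' hO' hne
    have h2 : Disjoint W (F.biUnion id) := by
      rw [Finset.disjoint_biUnion_right]
      intro O hO
      exact (hdW O hO).symm
    have h3 : W ∪ F.biUnion id = univ := by
      ext v
      simp only [mem_union, mem_biUnion, mem_univ, iff_true, id]
      by_cases hv : v ∈ W
      · exact Or.inl hv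
      · exact Or.inr (hcov v hv)
    rw [← h1, ← Finset.card_union_of_disjoint h2, h3, Finset.card_univ]
  have hmF : m = F.card + ∑ O ∈ F, O.card := by omega
  -- the vertices of degree two
  have hd2 : ∑ O ∈ F, (O.filter (fun v => dg G v = 2)).card ≤ a := by
    rw [← Finset.card_biUnion]
    · refine card_le_card fun v hv => ?_
      rw [mem_biUnion] at hv
      obtain ⟨O, hO, hv⟩ := hv
      rw [mem_filter] at hv
      simp only [deg2, mem_filter, mem_univ, true_and]
      exact hv.2
    · intro O hO O' hO' hne
      exact Finset.disjoint_of_subset_left (filter_subset _ _)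
        (Finset.disjoint_of_subset_right (filter_subset _ _) (hdis O hO O' hO' hne))
  have hloc : ∀ O ∈ F, O.card + (btw G O W).card ≤ (O.filter (fun v => dg G v = 2)).card + 2 := by
    intro O hOF
    have h1 := (hO O hOF).2
    have h2 : ∑ v ∈ O, (2 + if dg G v = 2 then 0 else 1) ≤ ∑ v ∈ O, dg G v := by
      refine Finset.sum_le_sum fun v _ => ?_
      have := hd v
      split_ifs <;> omega
    have h3 : ∑ v ∈ O, (2 + if dg G v = 2 then 0 else 1) =
        2 * O.card + (O.filter (fun v => ¬ dg G v = 2)).card := by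
      rw [Finset.sum_add_distrib, Finset.sum_const, smul_eq_mul, mul_comm, Finset.card_filter]
      congr 1
      refine Finset.sum_congr rfl fun v _ => ?_
      by_cases h : dg G v = 2 <;> simp [h]
    have h4 := Finset.card_filter_add_card_filter_not (s := O) (fun v => dg G v = 2)
    omega
  have hedge : ∀ O ∈ F, (ins G O).card + (btw G O W).card = O.card + 1 := by
    intro O hOF
    have h1 := hHAND V G O
    rw [btw_compl G W F hB O hOF] at h1
    have h2 := (hO O hOF).2
    omega
  have hfive : ∀ O ∈ F, 5 ≤ O.card + 2 * (btw G O W).card := by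
    intro O hOF
    have h1 := (hO O hOF).1
    have h2 := hedge O hOF
    have h3 := hodd O hOF
    rcases Nat.lt_or_ge (btw G O W).card 2 with h | h
    · have h4 : (btw G O W).card = 1 := by omega
      have h5 : O.card ≠ 1 := by
        intro h6
        obtain ⟨v, hv⟩ := Finset.card_eq_one.1 h6
        have h7 : (ins G O).card = 0 := by rw [hv, ins_single, card_empty]
        omega
      obtain ⟨t, ht⟩ := h3
      omega
    · obtain ⟨t, ht⟩ := h3
      omega
  have hsum : ∑ O ∈ F, (O.card + 2 * (btw G O W).card) ≤ ∑ O ∈ F, 5 := by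
    have h1 : ∑ O ∈ F, (O.card + (btw G O W).card) ≤
        ∑ O ∈ F, ((O.filter (fun v => dg G v = 2)).card + 2) := Finset.sum_le_sum hloc
    simp only [Finset.sum_add_distrib, Finset.sum_const, smul_eq_mul, ← Finset.mul_sum] at h1 ⊢
    omega
  have heach : ∀ O ∈ F, 5 = O.card + 2 * (btw G O W).card :=
    (Finset.sum_eq_sum_iff_of_le hfive).1 (le_antisymm (Finset.sum_le_sum hfive) hsum)
  have hmain : ∀ O ∈ F, (O.card = 1 ∧ (ins G O).card = 0 ∧ (btw G O W).card = 2) ∨
      (O.card = 3 ∧ (ins G O).card = 3 ∧ (btw G O W).card = 1) := by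
    intro O hOF
    have h1 := (hO O hOF).1
    have h2 := hedge O hOF
    have h3 := heach O hOF
    have h4 := hloc O hOF
    have h5 : (O.filter (fun v => dg G v = 2)).card ≤ O.card := card_le_card (filter_subset _ _)
    obtain ⟨t, ht⟩ := hodd O hOF
    omega
  refine ⟨hmain, ?_⟩
  have h1 : 2 * a = 2 * ∑ O ∈ F, (if O.card = 1 then 1 else 2) := by
    rw [h2a, hmF, Finset.mul_sum, Finset.card_eq_sum_ones, ← Finset.sum_add_distrib]
    refine Finset.sum_congr rfl fun O hOF => ?_
    rcases hmain O hOF with h | h
    · rw [if_pos h.1, h.1]; omega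
    · rw [if_neg (by omega), h.1]; omega
  omega

end Run7.h547.EC
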