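import Pool.Agent.Run7.h295.EC.Iface

set_option autoImplicit false

/-! Piece TOP of the project EC of helper295: the three top coefficients. -/

namespace Run7.h547.EC

open Finset Run7.h295.EC

open Classical in
theorem ec_top (V : Type) [Fintype V] (G : SimpleGraph V) (j : ℕ) (hj : j ≤ (EE G).card) :
    ec G ((EE G).card - j) =
      (((EE G).powersetCard j).filter (fun T => ∀ v, ¬ inc G v ⊆ T)).card := by
  unfold ec
  refine Finset.card_bij' (fun S _ => EE G \ S) (fun T _ => EE G \ T) ?_ ?_ ?_ ?_
  · intro S hS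
    simp only [covers, mem_filter, mem_powerset] at hS
    obtain ⟨⟨h1, h2⟩, h3⟩ := hS
    rw [mem_filter, mem_powersetCard]
    refine ⟨⟨sdiff_subset, ?_⟩, fun v hv => ?_⟩
    · rw [card_sdiff_of_subset h1, h3]; omega
    · obtain ⟨e, he, hve⟩ := h2 v
      have h4 : e ∈ inc G v := by simp only [inc, mem_filter]; exact ⟨h1 he, hve⟩
      exact (mem_sdiff.1 (hv h4)).2 he
  · intro T hT
    rw [mem_filter, mem_powersetCard] at hT
    obtain ⟨⟨h1, h2⟩, h3⟩ := hT
    simp only [covers, mem_filter, mem_powerset]
    refine ⟨⟨sdiff_subset, fun v => ?_⟩, ?_⟩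
    · obtain ⟨e, he, he2⟩ := Finset.not_subset.1 (h3 v)
      simp only [inc, mem_filter] at he
      exact ⟨e, mem_sdiff.2 ⟨he.1, he2⟩, he.2⟩
    · rw [card_sdiff_of_subset h1, h2]
  · intro S hS
    simp only [covers, mem_filter, mem_powerset] at hS
    exact Finset.sdiff_sdiff_eq_self hS.1.1
  · intro T hT
    rw [mem_filter, mem_powersetCard] at hT
    exact Finset.sdiff_sdiff_eq_self hT.1.1

theorem inc_inj (V : Type) [Fintype V] (G : SimpleGraph V) {v w : V} (hvw : v ≠ w)
    (h : inc G v = inc G w) : (inc G v).card ≤ 1 := by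
  classical
  have h1 : inc G v ⊆ {s(v, w)} := by
    intro e he
    have he2 := he
    rw [h] at he2
    simp only [inc, mem_filter] at he he2
    rw [mem_singleton]
    exact (Sym2.mem_and_mem_iff hvw).1 ⟨he.2, he2.2⟩
  exact (card_le_card h1).trans (by simp)

theorem t_TOP : S_TOP := by
  classical
  intro V _ G hV hd
  obtain ⟨v₀⟩ := hV
  have hm : 2 ≤ (EE G).card := (hd v₀).trans (card_le_card (filter_subset _ _))
  have hinc : ∀ (v : V) (T : Finset (Sym2 V)), inc G v ⊆ T → 2 ≤ T.card := fun v T h =>
    (hd v).trans (card_le_card h)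
  refine ⟨?_, ?_, ?_⟩
  · have h1 := ec_top V G 0 (Nat.zero_le _)
    rw [Nat.sub_zero] at h1
    rw [h1, Finset.filter_true_of_mem, card_powersetCard, Nat.choose_zero_right]
    intro T hT v hv
    rw [mem_powersetCard] at hT
    have := hinc v T hv
    omega
  · rw [ec_top V G 1 (by omega), Finset.filter_true_of_mem, card_powersetCard, Nat.choose_one_right]
    intro T hT v hv
    rw [mem_powersetCard] at hT
    have := hinc v T hv
    omega
  · rw [ec_top V G 2 hm]
    have h1 : ((EE G).powersetCard 2).filter (fun T => ¬ ∀ v, ¬ inc G v ⊆ T) =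
        (deg2 G).image (fun v => inc G v) := by
      ext T
      simp only [mem_filter, mem_powersetCard, mem_image, not_forall, not_not]
      constructor
      · rintro ⟨⟨h2, h3⟩, v, hv⟩
        have h4 : inc G v = T := Finset.eq_of_subset_of_card_le hv (by rw [h3]; exact hd v)
        refine ⟨v, ?_, h4⟩
        simp only [deg2, mem_filter, mem_univ, true_and, dg]
        rw [h4, h3]
      · rintro ⟨v, hv, rfl⟩
        simp only [deg2, mem_filter, mem_univ, true_and, dg] at hv
        exact ⟨⟨filter_subset _ _, hv⟩, v, Subset.refl _⟩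
    have h2 : ((deg2 G).image (fun v => inc G v)).card = (deg2 G).card := by
      refine Finset.card_image_of_injOn fun v hv w hw h => ?_
      by_contra hvw
      have h3 := inc_inj V G hvw h
      have h4 := hd v
      unfold dg at h4
      omega
    have h3 := Finset.card_filter_add_card_filter_not (s := (EE G).powersetCard 2)
      (fun T => ∀ v, ¬ inc G v ⊆ T)
    rw [h1, h2, card_powersetCard] at h3
    exact h3

end Run7.h547.EC
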